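import Pool.Agent.W37.SG.Stm2

/-!
# The cocycle `e_g`
-/

namespace Pool.Agent.W348.SG

open Pool.Agent.W37.SG

section
variable {p : ℕ} [Fact p.Prime]

theorem pne : (p : ℤ_[p]) ≠ 0 := by
  exact_mod_cast (Fact.out : p.Prime).ne_zero

/-- completeness of the `p`-adic integers -/
theorem exists_lim (a : ℕ → ℤ_[p]) (h : ∀ n, (p : ℤ_[p]) ^ n ∣ a (n + 1) - a n) :
    ∃ l : ℤ_[p], ∀ n, (p : ℤ_[p]) ^ n ∣ l - a n := by
  have hp1 : (1 : ℝ) < p := by exact_mod_cast (Fact.out : p.Prime).one_lt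
  have hiff : ∀ (n : ℕ) (x : ℤ_[p]), (p : ℤ_[p]) ^ n ∣ x ↔ ‖x‖ ≤ (p : ℝ) ^ (-(n : ℤ)) := by
    intro n x
    rw [PadicInt.norm_le_pow_iff_mem_span_pow, Ideal.mem_span_singleton]
  have hdvd : ∀ n m, n ≤ m → (p : ℤ_[p]) ^ n ∣ a m - a n := by
    intro n m hnm
    induction m, hnm using Nat.le_induction with
    | base => simp
    | succ m hm ih =>
      have e : a (m + 1) - a n = (a (m + 1) - a m) + (a m - a n) := by ring
      rw [e]
      exact dvd_add ((pow_dvd_pow _ hm).trans (h m)) ih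
  have hc : CauchySeq a := by
    refine cauchySeq_of_le_geometric ((p : ℝ)⁻¹) 1 (inv_lt_one_of_one_lt₀ hp1) fun n => ?_
    rw [dist_eq_norm, norm_sub_rev, one_mul]
    have := (hiff n _).1 (h n)
    rwa [zpow_neg, zpow_natCast, ← inv_pow] at this
  obtain ⟨l, hl⟩ := cauchySeq_tendsto_of_complete hc
  refine ⟨l, fun n => ?_⟩
  rw [hiff]
  have h1 : Filter.Tendsto (fun m => ‖a m - a n‖) Filter.atTop (nhds ‖l - a n‖) :=
    (hl.sub_const (a n)).norm
  refine le_of_tendsto h1 ?_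
  filter_upwards [Filter.eventually_ge_atTop n] with m hm
  exact (hiff n _).1 (hdvd n m hm)

theorem eq_of_dvd (x y : ℤ_[p]) (h : ∀ n : ℕ, (p : ℤ_[p]) ^ n ∣ x - y) : x = y := by
  by_contra hne
  have h0 : x - y ≠ 0 := sub_ne_zero.2 hne
  have h1 := h ((x - y).valuation + 1)
  have h2 : ‖x - y‖ ≤ (p : ℝ) ^ (-(((x - y).valuation + 1 : ℕ) : ℤ)) := by
    rw [PadicInt.norm_le_pow_iff_mem_span_pow, Ideal.mem_span_singleton]
    exact h1
  have h3 := PadicInt.norm_eq_zpow_neg_valuation h0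
  rw [h3] at h2
  have hp1 : (1 : ℝ) < p := by exact_mod_cast (Fact.out : p.Prime).one_lt
  have h4 := (zpow_le_zpow_iff_right₀ hp1).1 h2
  push_cast at h4
  omega

theorem inv_app (g : Pm p) (x : ℕ → ZMod p) : g⁻¹ (g x) = x := Equiv.symm_apply_apply g x

theorem app_inv (g : Pm p) (x : ℕ → ZMod p) : g (g⁻¹ x) = x := Equiv.apply_symm_apply g x

theorem asy {k : ℕ} {x y : ℕ → ZMod p} (h : Agr p k x y) : Agr p k y x :=
  fun j hj => (h j hj).symm

theorem atr {k : ℕ} {x y z : ℕ → ZMod p} (h : Agr p k x y) (h' : Agr p k y z) :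
    Agr p k x z := fun j hj => (h j hj).trans (h' j hj)

theorem amo {k l : ℕ} {x y : ℕ → ZMod p} (h : Agr p k x y) (hl : l ≤ k) : Agr p l x y :=
  fun j hj => h j (lt_of_lt_of_le hj hl)

theorem tri_agr {g : Pm p} (hg : IsTri p g) {k : ℕ} {x y : ℕ → ZMod p} (h : Agr p k x y) :
    Agr p k (g x) (g y) := by
  intro j hj
  have h1 := hg j x y (fun l hl => h l (hl.trans hj))
  have h2 := h j hj
  rw [h2] at h1
  exact sub_left_inj.1 h1

theorem ker_agr {u : Pm p} {k : ℕ} (hu : IsKer p k u) (x : ℕ → ZMod p) : Agr p k (u x) x :=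
  fun j hj => hu x j hj

theorem ker_pow {u : Pm p} {k : ℕ} (hu : IsKer p k u) (t : ℕ) (x : ℕ → ZMod p) :
    Agr p k ((u ^ t) x) x := by
  induction t with
  | zero => intro j _; rfl
  | succ t ih =>
    rw [pow_succ', Equiv.Perm.mul_apply]
    exact atr (ker_agr hu _) ih

theorem ker_conj {g u : Pm p} (hg : IsTri p g⁻¹) {k : ℕ} (hu : IsKer p k u) :
    IsKer p k (g⁻¹ * u * g) := by
  intro x i hi
  have h1 := tri_agr hg (ker_agr hu (g x))
  have h2 := h1 i hi
  rw [Equiv.Perm.mul_apply, Equiv.Perm.mul_apply, h2]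
  rw [inv_app]

theorem shift_pow {s : ℕ} {X : Pm p} {Φ : Zf p} (hC : ChartHyp p s X Φ) (n : ℕ)
    (x : ℕ → ZMod p) : Φ ((X ^ n) x) = Φ x + n := by
  induction n with
  | zero => simp
  | succ n ih =>
    rw [pow_succ', Equiv.Perm.mul_apply, hC.shift, ih]
    push_cast
    ring

theorem base1 {s : ℕ} {X : Pm p} {Φ : Zf p} (hC : ChartHyp p s X Φ) {i : ℕ} (hi : s ≤ i)
    {x y : ℕ → ZMod p} (h : Agr p i x y) : (p : ℤ_[p]) ^ (i - s) ∣ Φ x - Φ y := by
  refine (hC.base (i - s) x y (amo h hi)).1 ?_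
  rwa [Nat.add_sub_cancel' hi]

theorem base2 {s : ℕ} {X : Pm p} {Φ : Zf p} (hC : ChartHyp p s X Φ) {i : ℕ} (hi : s ≤ i)
    {x y : ℕ → ZMod p} (h0 : Agr p s x y) (h : (p : ℤ_[p]) ^ (i - s) ∣ Φ x - Φ y) :
    Agr p i x y := by
  have := (hC.base (i - s) x y h0).2 h
  rwa [Nat.add_sub_cancel' hi] at this

theorem dvd_cancel {a b : ℕ} {z : ℤ_[p]} (h : (p : ℤ_[p]) ^ (a + b) ∣ (p : ℤ_[p]) ^ a * z) :
    (p : ℤ_[p]) ^ b ∣ z := by
  rw [pow_add] at h
  exact (mul_dvd_mul_iff_left (pow_ne_zero _ pne)).1 h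

end

open Classical in
theorem main : Pool.Agent.W37.SG.S_EE := by
  intro _ hDISP p _ s Q X J α Φ hB
  have hDISP' := hDISP ‹_› p s Q X J α Φ hB
  have hsJ := hB.A.sJ
  have hC := hB.chart
  have hXQ := hB.XQ
  -- conjugates
  set Y : ℕ → Pm p := fun j => X ^ p ^ (j - s) with hY
  set u : Pm p → ℕ → Pm p := fun g j => g⁻¹ * Y j * g with hu
  have hYQ : ∀ j, Y j ∈ Q := fun j => Q.pow_mem hXQ _
  have huQ : ∀ g ∈ Q, ∀ j, u g j ∈ Q := fun g hg j =>
    Q.mul_mem (Q.mul_mem (Q.inv_mem hg) (hYQ j)) hg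
  have hYker : ∀ j, s ≤ j → IsKer p j (Y j) := fun j hj => (hB.xp j hj).1
  have huker : ∀ g ∈ Q, ∀ j, s ≤ j → IsKer p j (u g j) := fun g hg j hj =>
    ker_conj (hB.tri _ (Q.inv_mem hg)) (hYker j hj)
  have hup : ∀ g j, s ≤ j → (u g j) ^ p = u g (j + 1) := by
    intro g j hj
    have e1 : u g j = g⁻¹ * Y j * (g⁻¹)⁻¹ := by rw [hu, inv_inv]
    have e2 : u g (j + 1) = g⁻¹ * Y (j + 1) * (g⁻¹)⁻¹ := by rw [hu, inv_inv]
    rw [e1, e2, conj_pow, hY]
    simp only
    rw [← pow_mul, ← pow_succ]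
    congr 4
    omega
  have hupt : ∀ g j (t : ℕ) x, (u g j ^ t) x = g⁻¹ ((Y j ^ t) (g x)) := by
    intro g j t x
    have e1 : u g j = g⁻¹ * Y j * (g⁻¹)⁻¹ := by rw [hu, inv_inv]
    rw [e1, conj_pow, inv_inv]
    rfl
  -- powers
  have hpow : ∀ v ∈ Q, ∀ j, J ≤ j → IsKer p j v → ∀ (t : ℕ) x,
      (p : ℤ_[p]) ^ (2 * j - J - s) ∣ (Φ ((v ^ t) x) - Φ x) - t * (Φ (v x) - Φ x) := by
    intro v hv j hj hvk t x
    induction t with
    | zero => simp
    | succ t ih =>
      have h1 := hDISP' j j hj hj v hv hvk ((v ^ t) x) x (ker_pow hvk t x)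
      have e : j + j - J - s = 2 * j - J - s := by omega
      rw [e] at h1
      have e2 : (Φ ((v ^ (t + 1)) x) - Φ x) - ((t + 1 : ℕ) : ℤ_[p]) * (Φ (v x) - Φ x) =
          ((Φ (v ((v ^ t) x)) - Φ ((v ^ t) x)) - (Φ (v x) - Φ x)) +
          ((Φ ((v ^ t) x) - Φ x) - t * (Φ (v x) - Φ x)) := by
        rw [pow_succ', Equiv.Perm.mul_apply]
        push_cast
        ring
      rw [e2]
      exact dvd_add h1 ih
  -- the quotients
  have hE : ∀ g ∈ Q, ∀ j, J ≤ j → ∀ x, ∃ z : ℤ_[p],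
      Φ (u g j x) - Φ x = (p : ℤ_[p]) ^ (j - s) * z := fun g hg j hj x =>
    base1 hC (hsJ.trans hj) (ker_agr (huker g hg j (hsJ.trans hj)) x)
  choose! E hE using hE
  have hstep : ∀ g ∈ Q, ∀ j, J + 1 ≤ j → ∀ x,
      (p : ℤ_[p]) ^ (j - J - 1) ∣ E g (j + 1) x - E g j x := by
    intro g hg j hj x
    have hj' : J ≤ j := by omega
    have h1 := hpow (u g j) (huQ g hg j) j hj' (huker g hg j (by omega)) p x
    rw [hup g j (by omega), hE g hg (j + 1) (by omega) x, hE g hg j hj' x] at h1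
    have e1 : (p : ℤ_[p]) ^ (j + 1 - s) * E g (j + 1) x - (p : ℤ_[p]) * ((p : ℤ_[p]) ^ (j - s) *
        E g j x) = (p : ℤ_[p]) ^ (j + 1 - s) * (E g (j + 1) x - E g j x) := by
      have : j + 1 - s = (j - s) + 1 := by omega
      rw [this, pow_succ]
      ring
    rw [e1] at h1
    have e2 : 2 * j - J - s = (j + 1 - s) + (j - J - 1) := by omega
    rw [e2] at h1
    exact dvd_cancel h1
  have hlim : ∀ g ∈ Q, ∀ x, ∃ l : ℤ_[p], ∀ n, (p : ℤ_[p]) ^ n ∣ l - E g (J + 1 + n) x := by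
    intro g hg x
    refine exists_lim (fun n => E g (J + 1 + n) x) fun n => ?_
    have := hstep g hg (J + 1 + n) (by omega) x
    have e : J + 1 + n - J - 1 = n := by omega
    rw [e] at this
    exact this
  choose! e he using hlim
  have he' : ∀ g ∈ Q, ∀ j, J ≤ j → ∀ x, (p : ℤ_[p]) ^ (j - J - 1) ∣ e g x - E g j x := by
    intro g hg j hj x
    rcases Nat.lt_or_ge J j with h | h
    · have := he g hg x (j - J - 1)
      have e1 : J + 1 + (j - J - 1) = j := by omega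
      rwa [e1] at this
    · have e1 : j - J - 1 = 0 := by omega
      rw [e1, pow_zero]
      exact one_dvd _
  have hL : ∀ g ∈ Q, ∀ j, J ≤ j → ∀ x, (p : ℤ_[p]) ^ (2 * j - J - s - 1) ∣
      (Φ (u g j x) - Φ x) - (p : ℤ_[p]) ^ (j - s) * e g x := by
    intro g hg j hj x
    rw [hE g hg j hj x, ← mul_sub]
    have h1 := he' g hg j hj x
    have h2 : (p : ℤ_[p]) ^ (j - J - 1) ∣ E g j x - e g x := by
      rw [← neg_sub]
      exact h1.neg_right
    have h3 := mul_dvd_mul_left ((p : ℤ_[p]) ^ (j - s)) h2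
    rw [← pow_add] at h3
    exact (pow_dvd_pow _ (by omega)).trans h3
  have hgd : ∀ g ∈ Q, ∀ i, J ≤ i → ∀ x y, Agr p i x y → (p : ℤ_[p]) ^ (2 * i - J - s - 1) ∣
      (Φ y - Φ x) - e g x * (Φ (g y) - Φ (g x)) := by
    intro g hg i hi x y hxy
    have hsi : s ≤ i := hsJ.trans hi
    have hgt := hB.tri g hg
    have hgt' := hB.tri _ (Q.inv_mem hg)
    have h1 : Agr p i (g y) (g x) := tri_agr hgt (asy hxy)
    obtain ⟨z, hz⟩ := base1 hC hsi h1
    -- a natural number close to z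
    obtain ⟨t, ht⟩ : ∃ t : ℕ, (p : ℤ_[p]) ^ (i - J) ∣ z - t := by
      refine ⟨z.appr (i - J), ?_⟩
      have := PadicInt.appr_spec (i - J) z
      rwa [Ideal.mem_span_singleton] at this
    have h2 : Φ ((Y i ^ t) (g x)) = Φ (g x) + t * (p : ℤ_[p]) ^ (i - s) := by
      rw [hY]
      simp only
      rw [← pow_mul, shift_pow hC]
      push_cast
      ring
    have h3 : Agr p (2 * i - J) (g y) ((Y i ^ t) (g x)) := by
      refine base2 hC (by omega) ?_ ?_
      · exact amo (atr h1 (asy (ker_pow (hYker i hsi) t (g x)))) hsi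
      · rw [h2]
        have e1 : Φ (g y) - (Φ (g x) + t * (p : ℤ_[p]) ^ (i - s)) =
            (p : ℤ_[p]) ^ (i - s) * (z - t) := by
          rw [mul_sub, ← hz]
          ring
        rw [e1]
        have e2 : 2 * i - J - s = (i - s) + (i - J) := by omega
        rw [e2, pow_add]
        exact mul_dvd_mul_left _ ht
    have h4 : Agr p (2 * i - J) y ((u g i ^ t) x) := by
      have := tri_agr hgt' h3
      rw [inv_app, ← hupt] at this
      exact this
    have h5 : (p : ℤ_[p]) ^ (2 * i - J - s) ∣ Φ y - Φ ((u g i ^ t) x) :=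
      base1 hC (by omega) h4
    have h6 := hpow (u g i) (huQ g hg i) i hi (huker g hg i hsi) t x
    have h7 := hL g hg i hi x
    have hle : 2 * i - J - s - 1 ≤ 2 * i - J - s := by omega
    have h8 : (p : ℤ_[p]) ^ (2 * i - J - s) ∣ e g x * ((p : ℤ_[p]) ^ (i - s) * (z - t)) := by
      have e2 : 2 * i - J - s = (i - s) + (i - J) := by omega
      rw [e2, pow_add]
      exact (mul_dvd_mul_left _ ht).mul_left _
    have e3 : (Φ y - Φ x) - e g x * (Φ (g y) - Φ (g x)) =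
        (Φ y - Φ ((u g i ^ t) x)) +
        ((Φ ((u g i ^ t) x) - Φ x) - t * (Φ (u g i x) - Φ x)) +
        t * ((Φ (u g i x) - Φ x) - (p : ℤ_[p]) ^ (i - s) * e g x) -
        e g x * ((p : ℤ_[p]) ^ (i - s) * (z - t)) := by
      rw [hz]
      ring
    rw [e3]
    refine dvd_sub (dvd_add (dvd_add ((pow_dvd_pow _ hle).trans h5)
      ((pow_dvd_pow _ hle).trans h6)) (h7.mul_left _)) ((pow_dvd_pow _ hle).trans h8)
  refine ⟨e, ?_, ?_, ?_, ?_, hgd⟩
  · intro g hg j hj x
    exact hL g hg j hj x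
  · -- one
    intro g hg x
    obtain ⟨hk, c, hc0, hc⟩ := hB.xp (J + 2) (by omega)
    have h1 := he' g hg (J + 2) (by omega) x
    have e1 : J + 2 - J - 1 = 1 := by omega
    rw [e1, pow_one] at h1
    have hgt' := hB.tri _ (Q.inv_mem hg)
    have h2 : Agr p (J + 2 + 1) (u g (J + 2) x) (Y (J + 2) x) := by
      intro l hl
      rcases Nat.lt_or_ge l (J + 2) with h | h
      · rw [huker g hg (J + 2) (by omega) x l h, hYker (J + 2) (by omega) x l h]
      · have hl' : l = J + 2 := by omega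
        subst hl'
        have h3 := hgt' (J + 2) (Y (J + 2) (g x)) (g x) (fun m hm => hk (g x) m hm)
        rw [inv_app] at h3
        have h4 : Y (J + 2) (g x) (J + 2) = g x (J + 2) + c := hc (g x)
        have h5 : Y (J + 2) x (J + 2) = x (J + 2) + c := hc x
        have h6 : u g (J + 2) x = g⁻¹ (Y (J + 2) (g x)) := rfl
        rw [h6, h5]
        rw [h4] at h3
        linear_combination h3
    have h3 := base1 hC (by omega) h2
    have h4 : Φ (Y (J + 2) x) = Φ x + (p : ℤ_[p]) ^ (J + 2 - s) := by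
      rw [hY]
      simp only
      rw [shift_pow hC]
      push_cast
      rfl
    have h5 := hE g hg (J + 2) (by omega) x
    have e2 : Φ (u g (J + 2) x) - Φ (Y (J + 2) x) =
        (p : ℤ_[p]) ^ (J + 2 - s) * (E g (J + 2) x - 1) := by
      rw [h4, mul_sub, ← h5]
      ring
    have e3 : J + 2 + 1 - s = (J + 2 - s) + 1 := by omega
    rw [e2, e3] at h3
    have h6 := dvd_cancel h3
    rw [pow_one] at h6
    have e4 : e g x - 1 = (e g x - E g (J + 2) x) + (E g (J + 2) x - 1) := by ring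
    rw [e4]
    exact dvd_add h1 h6
  · -- mul
    intro g hg h hh x
    have key : ∀ n : ℕ, (p : ℤ_[p]) ^ n ∣ e (g * h) x - e g (h x) * e h x := by
      intro n
      set j := J + 1 + n with hj
      have hJj : J ≤ j := by omega
      have hsj : s ≤ j := by omega
      set y := u (g * h) j x with hy
      have hyx : Agr p j x y := asy (ker_agr (huker (g * h) (Q.mul_mem hg hh) j hsj) x)
      have hhy : h y = u g j (h x) := by
        rw [hy, hu]
        simp only [mul_inv_rev, Equiv.Perm.mul_apply, app_inv]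
      have h1 := hgd h hh j hJj x y hyx
      have h2 := hL (g * h) (Q.mul_mem hg hh) j hJj x
      have h3 := hL g hg j hJj (h x)
      rw [hhy] at h1
      have e1 : (p : ℤ_[p]) ^ (j - s) * (e (g * h) x - e g (h x) * e h x) =
          ((Φ y - Φ x) - e h x * (Φ (u g j (h x)) - Φ (h x))) -
          ((Φ y - Φ x) - (p : ℤ_[p]) ^ (j - s) * e (g * h) x) +
          e h x * ((Φ (u g j (h x)) - Φ (h x)) - (p : ℤ_[p]) ^ (j - s) * e g (h x)) := by
        ring
      have h4 : (p : ℤ_[p]) ^ (2 * j - J - s - 1) ∣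
          (p : ℤ_[p]) ^ (j - s) * (e (g * h) x - e g (h x) * e h x) := by
        rw [e1]
        exact dvd_add (dvd_sub h1 h2) (h3.mul_left _)
      have e2 : 2 * j - J - s - 1 = (j - s) + n := by omega
      rw [e2] at h4
      exact dvd_cancel h4
    exact eq_of_dvd _ _ key
  · -- X1
    intro x
    refine eq_of_dvd _ _ fun n => ?_
    have h1 := he X hXQ x n
    have h2 : E X (J + 1 + n) x = 1 := by
      have h3 := hE X hXQ (J + 1 + n) (by omega) x
      have h4 : u X (J + 1 + n) = X ^ p ^ (J + 1 + n - s) := by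
        rw [hu, hY]
        simp only
        rw [mul_assoc, ← pow_succ, pow_succ', inv_mul_cancel_left]
      rw [h4, shift_pow hC] at h3
      push_cast at h3
      have h5 : (p : ℤ_[p]) ^ (J + 1 + n - s) * (E X (J + 1 + n) x - 1) = 0 := by
        rw [mul_sub, ← h3]
        ring
      have h6 := (mul_eq_zero.1 h5).resolve_left (pow_ne_zero _ pne)
      exact sub_eq_zero.1 h6
    rw [h2] at h1
    exact h1

end Pool.Agent.W348.SG
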